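import Pool.Agent.GRA.StmtsM
import Pool.Agent.Helper64_FR.LOW

/-!
# Row FEN: the energy on torus invariant vectors
-/

open MeasureTheory Matrix Finset
open scoped ComplexConjugate

namespace Pool.Agent.GRA.H94

open Pool.Agent.Helper64_FR Pool.Agent.UTR Pool.Agent.BSE
open Pool.Agent.Helper64_FR.FIX Pool.Agent.Helper64_FR.LOW

variable {n : ℕ}

/-- The sum over ordered pairs of distinct indices. -/
theorem pair_sum (F : Finset (Fin n) → ℝ) :
    ∑ i : Fin n, ∑ j : Fin n, (if i = j then 0 else F {i, j}) =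
      2 * ∑ B ∈ Finset.univ.filter (fun B : Finset (Fin n) => B.card = 2), F B := by
  classical
  have h1 : ∑ i : Fin n, ∑ j : Fin n, (if i = j then 0 else F {i, j}) =
      ∑ p ∈ (Finset.univ : Finset (Fin n × Fin n)).filter (fun p => p.1 ≠ p.2),
        F {p.1, p.2} := by
    rw [Finset.sum_filter, ← Finset.univ_product_univ, Finset.sum_product]
    refine Finset.sum_congr rfl fun i _ => Finset.sum_congr rfl fun j _ => ?_
    by_cases h : i = j
    · simp [h]
    · simp [h]
  rw [h1, ← Finset.sum_fiberwise_of_maps_to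
    (t := Finset.univ.filter (fun B : Finset (Fin n) => B.card = 2))
    (g := fun p : Fin n × Fin n => ({p.1, p.2} : Finset (Fin n))) (by
      intro p hp
      simp only [Finset.mem_filter, Finset.mem_univ, true_and] at hp ⊢
      exact Finset.card_pair hp), Finset.mul_sum]
  refine Finset.sum_congr rfl fun B hB => ?_
  simp only [Finset.mem_filter, Finset.mem_univ, true_and] at hB
  obtain ⟨a, b, hab, rfl⟩ := Finset.card_eq_two.1 hB
  have h2 : ((Finset.univ : Finset (Fin n × Fin n)).filter (fun p => p.1 ≠ p.2)).filter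
      (fun p => ({p.1, p.2} : Finset (Fin n)) = {a, b}) = {(a, b), (b, a)} := by
    ext ⟨i, j⟩
    simp only [Finset.mem_filter, Finset.mem_univ, true_and, Finset.mem_insert,
      Finset.mem_singleton, Prod.mk.injEq]
    constructor
    · rintro ⟨hij, h⟩
      have hi : i ∈ ({a, b} : Finset (Fin n)) := by rw [← h]; simp
      have hj : j ∈ ({a, b} : Finset (Fin n)) := by rw [← h]; simp
      simp only [Finset.mem_insert, Finset.mem_singleton] at hi hj
      rcases hi with rfl | rfl <;> rcases hj with rfl | rfl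
      · exact absurd rfl hij
      · exact Or.inl ⟨rfl, rfl⟩
      · exact Or.inr ⟨rfl, rfl⟩
      · exact absurd rfl hij
    · rintro (⟨rfl, rfl⟩ | ⟨rfl, rfl⟩)
      · exact ⟨hab, rfl⟩
      · exact ⟨fun h => hab h.symm, Finset.pair_comm _ _⟩
  rw [h2, Finset.sum_pair (by
    intro h
    exact hab (Prod.mk.inj h).1)]
  simp only
  rw [Finset.pair_comm b a]
  ring

/-- The quadratic form of an eigenvector. -/
theorem eig_sq (ρ : URep n) (w : Finset (Fin n) → ℝ) (v : ρ.Sp) (x : ℝ)
    (hx : lapOp ρ w v = (x : ℂ) • v) :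
    x * ‖v‖ ^ 2 = ∑ B : Finset (Fin n), w B * ‖v - ρ.P B v‖ ^ 2 := by
  have h1 : inner ℂ v (lapOp ρ w v) = ((x * ‖v‖ ^ 2 : ℝ) : ℂ) := by
    rw [hx, inner_smul_right, inner_self_eq_norm_sq_to_K]
    push_cast
    rfl
  have h2 : inner ℂ v (lapOp ρ w v) =
      ((∑ B : Finset (Fin n), w B * ‖v - ρ.P B v‖ ^ 2 : ℝ) : ℂ) := by
    rw [lapOp_eq, _root_.sum_apply, inner_sum, Complex.ofReal_sum]
    refine Finset.sum_congr rfl fun B _ => ?_
    have h3 : ((w B : ℂ) • (1 - ρ.P B)) v = (w B : ℂ) • ((1 - ρ.P B) v) := rfl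
    rw [h3, inner_smul_right, inner_one_sub_P]
    push_cast
    rfl
  rw [h1] at h2
  exact_mod_cast h2

/-- An irreducible nontrivial representation has no nonzero invariant vectors. -/
theorem P_univ_zero' (ρ : URep n) (hρ : ρ.Irred) (hN : NTr ρ) (v : ρ.Sp) :
    ρ.P Finset.univ v = 0 := by
  let W : Submodule ℂ (Fin ρ.dim → ℂ) :=
    { carrier := {x | ρ.P Finset.univ (WithLp.toLp 2 x) = WithLp.toLp 2 x}
      add_mem' := by
        intro x y hx hy
        show ρ.P Finset.univ (WithLp.toLp 2 (x + y)) = _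
        rw [WithLp.toLp_add, map_add]
        exact congrArg₂ (· + ·) hx hy
      zero_mem' := by
        show ρ.P Finset.univ (WithLp.toLp 2 0) = _
        rw [WithLp.toLp_zero, map_zero]
      smul_mem' := by
        intro c x hx
        show ρ.P Finset.univ (WithLp.toLp 2 (c • x)) = _
        rw [WithLp.toLp_smul, map_smul]
        exact congrArg (c • ·) hx }
  have hW : W = ⊥ ∨ W = ⊤ := by
    apply hρ.2
    intro g x hx
    show ρ.P Finset.univ (WithLp.toLp 2 (ρ.mat g *ᵥ x)) = WithLp.toLp 2 (ρ.mat g *ᵥ x)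
    have hx' : ρ.P Finset.univ (WithLp.toLp 2 x) = WithLp.toLp 2 x := hx
    have h1 : (WithLp.toLp 2 (ρ.mat g *ᵥ x) : ρ.Sp) = ρ.op g (WithLp.toLp 2 x) := rfl
    have h2 : ρ.op g (WithLp.toLp 2 x) = WithLp.toLp 2 x := by
      rw [← hx']
      exact P_apply_inv ρ Finset.univ _ g (mem_UB_univ g)
    rw [h1, h2, hx']
  rcases hW with h | h
  · have h1 : WithLp.ofLp (ρ.P Finset.univ v) ∈ W := by
      show ρ.P Finset.univ (ρ.P Finset.univ v) = ρ.P Finset.univ v
      exact P_inv ρ _ _ (P_apply_inv ρ _ v)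
    rw [h, Submodule.mem_bot] at h1
    have : ρ.P Finset.univ v = WithLp.toLp 2 (WithLp.ofLp (ρ.P Finset.univ v)) := rfl
    rw [this, h1]
    rfl
  · exfalso
    apply hN
    intro g
    have h2 : ∀ x : Fin ρ.dim → ℂ, ρ.mat g *ᵥ x = x := by
      intro x
      have hx : x ∈ W := by rw [h]; trivial
      have hx' : ρ.P Finset.univ (WithLp.toLp 2 x) = WithLp.toLp 2 x := hx
      have h3 : ρ.op g (WithLp.toLp 2 x) = WithLp.toLp 2 x := by
        rw [← hx']
        exact P_apply_inv ρ Finset.univ _ g (mem_UB_univ g)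
      exact congrArg WithLp.ofLp h3
    ext i j
    have h4 := congrFun (h2 (Pi.single j 1)) i
    rw [Matrix.mulVec_single_one] at h4
    rw [Matrix.one_apply]
    simpa [Pi.single_apply] using h4

/-- Blocks with at most one element act trivially on torus invariant vectors. -/
theorem P_small (ρ : URep n) (v : ρ.Sp) (hv : TInv ρ v) (B : Finset (Fin n)) (hB : B.card ≤ 1) :
    ρ.P B v = v := by
  apply P_inv
  intro h hh
  rcases Nat.le_one_iff_eq_zero_or_eq_one.1 hB with h0 | h1
  · rw [Finset.card_eq_zero] at h0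
    subst h0
    have h2 : h = 1 := by
      apply Subtype.ext
      ext i j
      have := hh i j (Or.inl (Finset.notMem_empty i))
      rw [this]
      simp [Matrix.one_apply]
    rw [h2, op_one]
    rfl
  · obtain ⟨i, rfl⟩ := Finset.card_eq_one.1 h1
    exact hv i h hh

/-- Row FEN. -/
theorem fen : FENStmt := by
  classical
  intro n hn w _ hw ρ hρ hN x v hv hx
  have hx' : lapOp ρ w v = (x : ℂ) • v := congrArg (WithLp.toLp 2) hx
  rw [eig_sq ρ w v x hx']
  have h1 : ∑ i, ∑ j, (if i = j then 0 else Wp w i j * ‖v - ρ.P {i, j} v‖ ^ 2) =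
      2 * ∑ B ∈ Finset.univ.filter (fun B : Finset (Fin n) => B.card = 2),
        w B * ‖v - ρ.P B v‖ ^ 2 := by
    refine Eq.trans ?_ (pair_sum (fun B : Finset (Fin n) => w B * ‖v - ρ.P B v‖ ^ 2))
    refine Finset.sum_congr rfl fun i _ => Finset.sum_congr rfl fun j _ => ?_
    by_cases h : i = j
    · simp [h]
    · simp [h, Wp]
  rw [h1]
  rw [← Finset.sum_filter_add_sum_filter_not Finset.univ (fun B : Finset (Fin n) => B.card = 2)]
  have h2 : ∑ B ∈ Finset.univ.filter (fun B : Finset (Fin n) => ¬ B.card = 2),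
      w B * ‖v - ρ.P B v‖ ^ 2 = w Finset.univ * ‖v‖ ^ 2 := by
    rw [Finset.sum_eq_single Finset.univ]
    · rw [P_univ_zero' ρ hρ hN, sub_zero]
    · intro B hB hBu
      simp only [Finset.mem_filter, Finset.mem_univ, true_and] at hB
      by_cases h3 : w B = 0
      · rw [h3, zero_mul]
      · rcases hw B h3 with h4 | h4
        · rw [P_small ρ v hv B (by omega), sub_self, norm_zero]
          ring
        · exact absurd h4 hBu
    · intro h3
      exfalso
      apply h3
      simp only [Finset.mem_filter, Finset.mem_univ, true_and, Finset.card_univ, Fintype.card_fin]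
      omega
  rw [h2]
  ring

end Pool.Agent.GRA.H94
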