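import Pool.Agent.GRA.StmtsM
import Pool.Agent.Helper64_FR.LOW
import Pool.Agent.Helper47_FR.Der
import Pool.Agent.Helper73_FR.Cas

/-!
# Row FNS: the nonspherical representations
-/

open MeasureTheory Matrix Finset
open scoped ComplexConjugate

namespace Pool.Agent.GRA.H94

open Pool.Agent.Helper64_FR Pool.Agent.UTR Pool.Agent.BSE
open Pool.Agent.Helper64_FR.FIX

variable {n : ℕ}

/-- The one-body inequality for a unit vector. -/
theorem oneG_single {W : Fin n → Fin n → ℝ} {lam : ℝ} (h : OneG W Finset.univ lam)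
    (hW : ∀ i j, W i j = W j i) (i : Fin n) :
    lam * (1 - 1 / n) ≤ (1 / 2) * ∑ j, if i = j then 0 else W i j := by
  classical
  have h1 := h (fun k => if k = i then 1 else 0)
  have e1 : ∑ k : Fin n, (if k = i then (1 : ℝ) else 0) ^ 2 = 1 := by
    simp
  have e2 : ∑ k : Fin n, (if k = i then (1 : ℝ) else 0) = 1 := by
    simp
  have e3 : ∑ a : Fin n, ∑ b : Fin n, W a b *
      ((if a = i then (1 : ℝ) else 0) - (if b = i then 1 else 0)) ^ 2 =
      2 * ∑ j, if i = j then 0 else W i j := by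
    have e4 : ∀ a b : Fin n, W a b *
        ((if a = i then (1 : ℝ) else 0) - (if b = i then 1 else 0)) ^ 2 =
        (if a = i then (if i = b then 0 else W i b) else 0) +
          (if b = i then (if i = a then 0 else W i a) else 0) := by
      intro a b
      by_cases ha : a = i
      · subst ha
        by_cases hb : b = a
        · subst hb; simp
        · have hb' : ¬ a = b := fun h => hb h.symm
          simp [hb, hb']
      · by_cases hb : b = i
        · subst hb
          have ha' : ¬ b = a := fun h => ha h.symm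
          simp [ha, ha', hW a b]
        · simp [ha, hb]
    simp only [e4, Finset.sum_add_distrib]
    rw [Finset.sum_comm (f := fun a b => if b = i then (if i = a then 0 else W i a) else 0)]
    have e5 : ∑ a : Fin n, ∑ b : Fin n, (if a = i then (if i = b then (0 : ℝ) else W i b) else 0) =
        ∑ b, if i = b then 0 else W i b := by
      rw [Finset.sum_eq_single i]
      · simp
      · intro a _ ha
        simp [ha]
      · simp
    rw [e5]
    ring
  rw [e1, e2, e3] at h1
  simp only [Finset.card_univ, Fintype.card_fin, one_pow] at h1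
  linarith

/-- Row FNS. -/
theorem fns (hCTR : CTRStmt) (hSYS : SYSStmt) (hMFA : MFAStmt) : FNSStmt := by
  classical
  intro n hn ρ hρ hNS W hW hW0 lam hlam f hf
  obtain ⟨S, hSs, hSP⟩ := hSYS n ρ
  by_cases h4 : 4 ≤ n
  · -- the mean field bound
    obtain ⟨D, hD⟩ := Pool.Agent.Helper64_FR.H47.der n ρ
    obtain ⟨C, _, hC, _⟩ := Pool.Agent.Helper64_FR.H73.cas n ρ D hρ hD
    have hmf := hMFA n hn ρ D C hρ hNS hD hC
    have hn' : (4 : ℝ) ≤ n := by exact_mod_cast h4
    have key := hCTR n h4 (TI ρ) S (by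
      intro f₀ hf₀ i j hij
      by_cases h0 : f₀ = 0
      · rw [h0, map_zero, sub_zero, norm_zero]
        simp
      · have h0' : (f₀ : ρ.Sp) ≠ 0 := fun h => h0 (Subtype.ext h)
        have hSI : SI ρ (f₀ : ρ.Sp) := by
          intro τ
          rw [← hSs, hf₀ τ]
        have h1 := (hmf (f₀ : ρ.Sp) f₀.2 hSI h0').2 i j hij
        have h2 : ‖f₀ - S.P i j f₀‖ = ‖(f₀ : ρ.Sp) - ρ.P {i, j} (f₀ : ρ.Sp)‖ := by
          rw [← hSP]
          rfl
        have h3 : ‖f₀‖ = ‖(f₀ : ρ.Sp)‖ := rfl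
        rw [h2, h3]
        have h5 : (0 : ℝ) < 2 * n - 5 := by linarith
        rw [div_mul_eq_mul_div, div_le_iff₀ h5]
        calc (2 * (n : ℝ) - 4) * ‖(f₀ : ρ.Sp)‖ ^ 2 ≤ _ := h1
          _ = _ := by ring) W hW hW0 lam hlam ⟨f, hf⟩
    have e1 : ‖(⟨f, hf⟩ : TI ρ)‖ = ‖f‖ := rfl
    have e2 : ∀ i j, ‖(⟨f, hf⟩ : TI ρ) - S.P i j ⟨f, hf⟩‖ = ‖f - ρ.P {i, j} f‖ := by
      intro i j
      have := hSP i j ⟨f, hf⟩
      change ‖f - ((S.P i j ⟨f, hf⟩ : TI ρ) : ρ.Sp)‖ = _
      rw [this]
    simp only [e1, e2] at key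
    exact key
  · have hn3 : n = 3 := by omega
    subst hn3
    have hfin : ∀ i j : Fin 3, i ≠ j → ∃ l : Fin 3,
        ({i, j} : Finset (Fin 3)) = Finset.univ.erase l := by decide
    have hP : ∀ i j : Fin 3, i ≠ j → ρ.P {i, j} f = 0 := by
      intro i j hij
      have hT : TInv ρ (ρ.P {i, j} f) := by
        have h1 := hSP i j ⟨f, hf⟩
        change ((S.P i j ⟨f, hf⟩ : TI ρ) : ρ.Sp) = ρ.P {i, j} f at h1
        rw [← h1]
        exact (S.P i j ⟨f, hf⟩).2
      obtain ⟨l, hl⟩ := hfin i j hij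
      refine hNS l _ ?_ (hT l)
      rw [← hl]
      exact P_apply_inv ρ _ f
    have e1 : ∀ i j : Fin 3, (if i = j then (0 : ℝ) else W i j * ‖f - ρ.P {i, j} f‖ ^ 2) =
        (if i = j then 0 else W i j) * ‖f‖ ^ 2 := by
      intro i j
      by_cases h : i = j
      · simp [h]
      · rw [if_neg h, if_neg h, hP i j h, sub_zero]
    have e2 : ∑ i : Fin 3, ∑ j : Fin 3, (if i = j then (0 : ℝ) else
        W i j * ‖f - ρ.P {i, j} f‖ ^ 2) =
        (∑ i : Fin 3, ∑ j : Fin 3, if i = j then 0 else W i j) * ‖f‖ ^ 2 := by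
      simp only [e1, Finset.sum_mul]
    rw [e2]
    have h1 : ∀ i : Fin 3, lam * (1 - 1 / 3) ≤ (1 / 2) * ∑ j, if i = j then 0 else W i j := by
      intro i
      have := oneG_single hlam hW i
      exact_mod_cast this
    have h2 : ∑ _i : Fin 3, lam * (1 - 1 / 3) ≤
        ∑ i : Fin 3, (1 / 2) * ∑ j, (if i = j then 0 else W i j) :=
      Finset.sum_le_sum fun i _ => h1 i
    have h2' : ∑ i : Fin 3, (1 / 2 : ℝ) * ∑ j, (if i = j then 0 else W i j) =
        (1 / 2) * ∑ i : Fin 3, ∑ j, (if i = j then 0 else W i j) := by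
      rw [Finset.mul_sum]
    rw [h2', Finset.sum_const, Finset.card_univ, Fintype.card_fin] at h2
    have h3 : 0 ≤ ∑ i : Fin 3, ∑ j : Fin 3, if i = j then 0 else W i j := by
      refine Finset.sum_nonneg fun i _ => Finset.sum_nonneg fun j _ => ?_
      split_ifs
      · exact le_refl _
      · exact hW0 i j
    have h4 : lam ≤ (1 / 2) * ∑ i : Fin 3, ∑ j : Fin 3, if i = j then 0 else W i j := by
      rw [nsmul_eq_mul] at h2
      norm_num at h2
      linarith
    have h5 : 0 ≤ ‖f‖ ^ 2 := by positivity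
    nlinarith

end Pool.Agent.GRA.H94
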